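import Mathlib

set_option autoImplicit false

/-!
Practical stabilization entropy can be strictly smaller than stabilization entropy: already for the
scalar integrator `x' = u` with the exponential rate `ζ(r, t) = e^{-t} r`.
-/

namespace Pool.Agent.Results.MP_395e41_an.PracticalSmaller

open MeasureTheory Set Filter Topology
open scoped ENNReal

/-- Admissible controls: measurable functions with `u t ∈ U` for almost every `t ≥ 0`. -/
def Controls {W : Type*} [TopologicalSpace W] (U : Set W) : Set (ℝ → W) :=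
  {u | AEStronglyMeasurable u volume ∧ ∀ᵐ t ∂volume, 0 ≤ t → u t ∈ U}

/-- `x` is a (Caratheodory) solution on `[0, ∞)` of `x' = f(x, u)`, `x 0 = x₀`. -/
def IsSol {V W : Type*} [NormedAddCommGroup V] [NormedSpace ℝ V]
    (f : V → W → V) (x₀ : V) (u : ℝ → W) (x : ℝ → V) : Prop :=
  ContinuousOn x (Ici 0) ∧ ∀ t, 0 ≤ t →
    IntervalIntegrable (fun s => f (x s) (u s)) volume 0 t ∧
      x t = x₀ + ∫ s in (0 : ℝ)..t, f (x s) (u s)

/-- A control system: right-hand side `f` (continuous), compact control range `U`, and its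
solution map `φ`; solutions exist, are unique and depend continuously on the initial state. -/
structure ControlSystem (V W : Type*) [NormedAddCommGroup V] [NormedSpace ℝ V]
    [NormedAddCommGroup W] [NormedSpace ℝ W] where
  f : V → W → V
  U : Set W
  φ : ℝ → V → (ℝ → W) → V
  cont_f : Continuous (Function.uncurry f)
  compact_U : IsCompact U
  exist : ∀ x₀, ∀ u ∈ Controls U, IsSol f x₀ u (fun t => φ t x₀ u)
  unique : ∀ x₀, ∀ u ∈ Controls U, ∀ x, IsSol f x₀ u x → ∀ t, 0 ≤ t → x t = φ t x₀ u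
  cont_init : ∀ u ∈ Controls U, ∀ t, 0 ≤ t → Continuous fun x₀ => φ t x₀ u

/-- `ζ` is a function of class KL. -/
structure IsKL (ζ : ℝ → ℝ → ℝ) : Prop where
  cont : ContinuousOn (Function.uncurry ζ) (Ici 0 ×ˢ Ici 0)
  zero : ∀ s, 0 ≤ s → ζ 0 s = 0
  mono : ∀ s, 0 ≤ s → StrictMonoOn (fun r => ζ r s) (Ici 0)
  anti : ∀ r, 0 < r → StrictAntiOn (fun s => ζ r s) (Ici 0)
  lim : ∀ r, 0 ≤ r → Tendsto (fun s => ζ r s) atTop (𝓝 0)

namespace ControlSystem

variable {V W : Type*} [NormedAddCommGroup V] [NormedSpace ℝ V]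
    [NormedAddCommGroup W] [NormedSpace ℝ W] (C : ControlSystem V W)

/-- The system is stabilizable for `ζ, Γ, Λ`. -/
def Stabilizable (ζ : ℝ → ℝ → ℝ) (Γ Λ : Set V) : Prop :=
  ∀ x₀ ∈ Γ, ∃ u ∈ Controls C.U, ∀ t, 0 ≤ t →
    Metric.infDist (C.φ t x₀ u) Λ ≤ ζ (Metric.infDist x₀ Λ) t

/-- `S` is a `(τ, ε)`-spanning set of controls. -/
def Spanning (ζ : ℝ → ℝ → ℝ) (Γ Λ : Set V) (τ ε : ℝ) (S : Set (ℝ → W)) : Prop :=
  S ⊆ Controls C.U ∧ ∀ x₀ ∈ Γ, ∃ u ∈ S, ∀ t, 0 ≤ t → t ≤ τ →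
    Metric.infDist (C.φ t x₀ u) Λ ≤ ζ (Metric.infDist x₀ Λ + ε) t

/-- `S` is a practically `(τ, ε)`-spanning set of controls. -/
def PracticallySpanning (ζ : ℝ → ℝ → ℝ) (Γ Λ : Set V) (τ ε : ℝ) (S : Set (ℝ → W)) : Prop :=
  S ⊆ Controls C.U ∧ ∀ x₀ ∈ Γ, ∃ u ∈ S, ∀ t, 0 ≤ t → t ≤ τ →
    Metric.infDist (C.φ t x₀ u) Λ ≤ ζ (Metric.infDist x₀ Λ + ε) t + ε

/-- Minimal cardinality `r_s(τ, ε)` of a spanning set (`⊤` if there is no finite one). -/
noncomputable def rs (ζ : ℝ → ℝ → ℝ) (Γ Λ : Set V) (τ ε : ℝ) : ℕ∞ :=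
  ⨅ (S : Set (ℝ → W)) (_ : C.Spanning ζ Γ Λ τ ε S), S.encard

/-- Minimal cardinality `r_ps(τ, ε)` of a practically spanning set. -/
noncomputable def rps (ζ : ℝ → ℝ → ℝ) (Γ Λ : Set V) (τ ε : ℝ) : ℕ∞ :=
  ⨅ (S : Set (ℝ → W)) (_ : C.PracticallySpanning ζ Γ Λ τ ε S), S.encard

/-- `h_s(ε) = limsup_{τ → ∞} (1/τ) log r_s(τ, ε)`. -/
noncomputable def hs (ζ : ℝ → ℝ → ℝ) (Γ Λ : Set V) (ε : ℝ) : EReal :=
  limsup (fun τ : ℝ => ENNReal.log (C.rs ζ Γ Λ τ ε : ℝ≥0∞) / (τ : EReal)) atTop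

/-- `h_ps(ε) = limsup_{τ → ∞} (1/τ) log r_ps(τ, ε)`. -/
noncomputable def hps (ζ : ℝ → ℝ → ℝ) (Γ Λ : Set V) (ε : ℝ) : EReal :=
  limsup (fun τ : ℝ => ENNReal.log (C.rps ζ Γ Λ τ ε : ℝ≥0∞) / (τ : EReal)) atTop

end ControlSystem

/-! ### The integrator -/

theorem integrable_control {u : ℝ → ℝ} (hu : u ∈ Controls (Icc (-1 : ℝ) 1)) {a b : ℝ}
    (ha : 0 ≤ a) (hb : 0 ≤ b) :
    IntervalIntegrable u volume a b := by
  rw [intervalIntegrable_iff]
  have hfin : volume (uIoc a b) < ⊤ := by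
    rw [uIoc]; exact measure_Ioc_lt_top
  refine Integrable.mono' (g := fun _ => (1 : ℝ)) ?_ hu.1.restrict ?_
  · exact integrableOn_const hfin.ne
  · rw [ae_restrict_iff' measurableSet_uIoc]
    filter_upwards [hu.2] with t ht hmem
    have h0 : 0 ≤ t := by
      rw [uIoc, mem_Ioc] at hmem
      exact (le_min ha hb).trans hmem.1.le
    have := ht h0
    rw [Real.norm_eq_abs, abs_le]
    exact ⟨this.1, this.2⟩

/-- The solution map of `x' = u`. -/
noncomputable def flow (t x₀ : ℝ) (u : ℝ → ℝ) : ℝ := x₀ + ∫ s in (0 : ℝ)..t, u s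

theorem flow_isSol (x₀ : ℝ) (u : ℝ → ℝ) (hu : u ∈ Controls (Icc (-1 : ℝ) 1)) :
    IsSol (fun _ v : ℝ => v) x₀ u (fun t => flow t x₀ u) := by
  refine ⟨?_, fun t ht => ⟨integrable_control hu le_rfl ht, rfl⟩⟩
  unfold flow
  refine continuousOn_const.add ?_
  intro t ht
  have hT : (0 : ℝ) ≤ t + 1 := by have := mem_Ici.1 ht; linarith
  have hint : IntegrableOn u (uIcc 0 (t + 1)) volume := by
    have := integrable_control hu le_rfl hT
    rwa [intervalIntegrable_iff_integrableOn_Icc_of_le hT, ← uIcc_of_le hT] at this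
  have hc := intervalIntegral.continuousOn_primitive_interval (μ := volume) (f := u)
    (a := 0) (b := t + 1) hint
  have hmem : t ∈ uIcc 0 (t + 1) := by
    rw [uIcc_of_le hT]; exact ⟨ht, by linarith⟩
  refine (hc t hmem).mono_of_mem_nhdsWithin ?_
  rw [uIcc_of_le hT]
  have : Iio (t + 1) ∈ 𝓝 t := Iio_mem_nhds (by linarith)
  filter_upwards [self_mem_nhdsWithin, nhdsWithin_le_nhds this] with y hy hy'
  exact ⟨hy, le_of_lt hy'⟩

/-- The system `x' = u`, `u ∈ [-1, 1]`. -/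
noncomputable def integrator : ControlSystem ℝ ℝ where
  f := fun _ v => v
  U := Icc (-1) 1
  φ := flow
  cont_f := continuous_snd
  compact_U := isCompact_Icc
  exist := flow_isSol
  unique := fun _ _ _ _ hx t ht => (hx.2 t ht).2
  cont_init := fun _ _ _ _ => continuous_id.add continuous_const

/-- The rate `ζ(r, t) = e^{-t} r`. -/
noncomputable def rate (r t : ℝ) : ℝ := Real.exp (-t) * r

theorem rate_isKL : IsKL rate where
  cont := by
    refine Continuous.continuousOn ?_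
    show Continuous fun p : ℝ × ℝ => Real.exp (-p.2) * p.1
    fun_prop
  zero := fun s _ => by simp [rate]
  mono := fun s _ a _ b _ hab => by
    show Real.exp (-s) * a < Real.exp (-s) * b
    exact mul_lt_mul_of_pos_left hab (Real.exp_pos _)
  anti := fun r hr a _ b _ hab => by
    show Real.exp (-b) * r < Real.exp (-a) * r
    exact mul_lt_mul_of_pos_right (Real.exp_lt_exp.2 (by linarith)) hr
  lim := fun r _ => by
    have : Tendsto (fun s : ℝ => Real.exp (-s)) atTop (𝓝 0) := Real.tendsto_exp_neg_atTop_nhds_zero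
    simpa [rate] using this.mul_const r

/-- The control steering `y` along `e^{-t} y`. -/
noncomputable def ctl (y : ℝ) : ℝ → ℝ := fun t => -(Real.exp (-t) * y)

theorem ctl_mem {y : ℝ} (hy : y ∈ Icc (0 : ℝ) 1) : ctl y ∈ Controls (Icc (-1 : ℝ) 1) := by
  refine ⟨(by unfold ctl; fun_prop : Continuous (ctl y)).aestronglyMeasurable, ?_⟩
  refine Eventually.of_forall fun t ht => ?_
  have h1 : Real.exp (-t) ≤ 1 := Real.exp_le_one_iff.2 (by linarith)
  have h2 := Real.exp_pos (-t)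
  have h3 : Real.exp (-t) * y ≤ 1 := by nlinarith [hy.1, hy.2]
  have h4 : 0 ≤ Real.exp (-t) * y := mul_nonneg h2.le hy.1
  show -(Real.exp (-t) * y) ∈ Icc (-1 : ℝ) 1
  exact ⟨by linarith, by linarith⟩

theorem flow_ctl (t x₀ y : ℝ) : flow t x₀ (ctl y) = x₀ - y + Real.exp (-t) * y := by
  have : ∫ s in (0 : ℝ)..t, ctl y s = Real.exp (-t) * y - Real.exp (-0) * y := by
    refine intervalIntegral.integral_eq_sub_of_hasDerivAt (f := fun s => Real.exp (-s) * y) ?_ ?_
    · intro s _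
      have h : HasDerivAt (fun s => Real.exp (-s) * y) (Real.exp (-s) * -1 * y) s :=
        ((hasDerivAt_neg s).exp).mul_const y
      have e : ctl y s = Real.exp (-s) * -1 * y := by
        show -(Real.exp (-s) * y) = _
        ring
      rw [e]
      exact h
    · exact (by unfold ctl; fun_prop : Continuous (ctl y)).intervalIntegrable _ _
  rw [flow, this]
  simp
  ring

theorem stab : integrator.Stabilizable rate (Icc 0 1) {0} := by
  intro x₀ hx
  refine ⟨ctl x₀, ctl_mem hx, fun t _ => ?_⟩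
  show Metric.infDist (flow t x₀ (ctl x₀)) {0} ≤ Real.exp (-t) * Metric.infDist x₀ {0}
  rw [Metric.infDist_singleton, Metric.infDist_singleton, flow_ctl, sub_self, zero_add,
    Real.dist_eq, Real.dist_eq, sub_zero, sub_zero, abs_mul, abs_of_pos (Real.exp_pos _)]

/-- A finite practically spanning set that works for every `τ`. -/
theorem practical {ε : ℝ} (hε : 0 < ε) :
    ∃ N : ℕ, ∀ τ, integrator.rps rate (Icc 0 1) {0} τ ε ≤ N := by
  obtain ⟨n, hn⟩ := exists_nat_gt (2 / ε)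
  have hn0 : (0 : ℝ) < n := lt_trans (by positivity) hn
  have hn' : 2 / n < ε := by
    rw [div_lt_iff₀ hn0]; rw [div_lt_iff₀ hε] at hn; linarith
  classical
  let S : Finset (ℝ → ℝ) := (Finset.range (n + 1)).image fun k : ℕ => ctl ((k : ℝ) / n)
  refine ⟨S.card, fun τ => ?_⟩
  have hS : integrator.PracticallySpanning rate (Icc 0 1) {0} τ ε (S : Set (ℝ → ℝ)) := by
    constructor
    · intro u hu
      simp only [S, Finset.coe_image, mem_image, Finset.coe_range, mem_Iio] at hu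
      obtain ⟨k, hk, rfl⟩ := hu
      refine ctl_mem ⟨by positivity, ?_⟩
      rw [div_le_one hn0]
      exact_mod_cast Nat.lt_succ_iff.1 hk
    · intro x hx
      let k := ⌊x * n⌋₊
      have hk1 : (k : ℝ) ≤ x * n := Nat.floor_le (mul_nonneg hx.1 hn0.le)
      have hk2 : x * n < k + 1 := Nat.lt_floor_add_one _
      have hk3 : k < n + 1 := by
        have : (k : ℝ) ≤ n := hk1.trans (by nlinarith [hx.2])
        exact Nat.lt_succ_iff.2 (by exact_mod_cast this)
      refine ⟨ctl ((k : ℝ) / n), ?_, fun t ht _ => ?_⟩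
      · exact Finset.mem_coe.2 (Finset.mem_image.2 ⟨k, Finset.mem_range.2 hk3, rfl⟩)
      · show Metric.infDist (flow t x (ctl ((k : ℝ) / n))) {0} ≤
          Real.exp (-t) * (Metric.infDist x {0} + ε) + ε
        have hy1 : (k : ℝ) / n ≤ x := by rw [div_le_iff₀ hn0]; exact hk1
        have hy2 : x - (k : ℝ) / n ≤ 1 / n := by
          rw [le_div_iff₀ hn0, sub_mul, div_mul_cancel₀ _ hn0.ne']; linarith
        have hy0 : 0 ≤ (k : ℝ) / n := by positivity
        have h1n : 1 / (n : ℝ) ≤ 2 / n := by gcongr; norm_num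
        rw [Metric.infDist_singleton, Metric.infDist_singleton, flow_ctl, Real.dist_eq,
          Real.dist_eq, sub_zero, sub_zero, abs_of_nonneg hx.1]
        have he := Real.exp_pos (-t)
        rw [abs_of_nonneg (by nlinarith [mul_nonneg he.le hy0])]
        nlinarith [mul_le_mul_of_nonneg_left hy1 he.le, mul_pos he hε]
  calc integrator.rps rate (Icc 0 1) {0} τ ε ≤ (S : Set (ℝ → ℝ)).encard := iInf₂_le _ hS
    _ = S.card := by simp

theorem one_le_rps {τ ε : ℝ} : 1 ≤ integrator.rps rate (Icc 0 1) {0} τ ε := by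
  refine le_iInf₂ fun S hS => ?_
  obtain ⟨u, hu, -⟩ := hS.2 0 ⟨le_rfl, zero_le_one⟩
  exact Set.one_le_encard_iff_nonempty.2 ⟨u, hu⟩

/-- The lower bound `e^τ / 4` for the cardinality of spanning sets. -/
theorem lower {τ ε : ℝ} (hτ : 0 ≤ τ) (hε : ε ≤ 1) :
    ENNReal.ofReal (Real.exp τ / 4) ≤ (integrator.rs rate (Icc 0 1) {0} τ ε : ℝ≥0∞) := by
  by_contra hcon
  rw [not_le] at hcon
  have hlt : integrator.rs rate (Icc 0 1) {0} τ ε < ⊤ := by
    rw [lt_top_iff_ne_top]
    intro h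
    rw [h] at hcon
    simp at hcon
  obtain ⟨S, hS⟩ : ∃ S : Set (ℝ → ℝ), ∃ _ : integrator.Spanning rate (Icc 0 1) {0} τ ε S,
      S.encard = integrator.rs rate (Icc 0 1) {0} τ ε := by
    have h1 : (integrator.rs rate (Icc 0 1) {0} τ ε) =
        sInf {c : ℕ∞ | ∃ S : Set (ℝ → ℝ), integrator.Spanning rate (Icc 0 1) {0} τ ε S ∧
          S.encard = c} := by
      unfold ControlSystem.rs
      apply le_antisymm
      · refine le_sInf ?_
        rintro c ⟨S, hS, rfl⟩
        exact iInf₂_le _ hS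
      · refine le_iInf₂ fun S hS => sInf_le ⟨S, hS, rfl⟩
    have hne : {c : ℕ∞ | ∃ S : Set (ℝ → ℝ), integrator.Spanning rate (Icc 0 1) {0} τ ε S ∧
        S.encard = c}.Nonempty := by
      by_contra hemp
      rw [not_nonempty_iff_eq_empty] at hemp
      rw [h1, hemp, sInf_empty] at hlt
      exact lt_irrefl _ hlt
    obtain ⟨S, hS, hc⟩ := csInf_mem hne
    exact ⟨S, hS, hc.trans h1.symm⟩
  obtain ⟨hSp, hcard⟩ := hS
  have hfin : S.Finite := by
    rw [← Set.encard_lt_top_iff, hcard]; exact hlt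
  lift S to Finset (ℝ → ℝ) using hfin
  have hcov : Icc (0 : ℝ) 1 ⊆ ⋃ u ∈ S, Metric.closedBall (-∫ s in (0 : ℝ)..τ, u s)
      (2 * Real.exp (-τ)) := by
    intro x hx
    obtain ⟨u, hu, h⟩ := hSp.2 x hx
    have h' : Metric.infDist (flow τ x u) {0} ≤ Real.exp (-τ) * (Metric.infDist x {0} + ε) :=
      h τ hτ le_rfl
    rw [Metric.infDist_singleton, Metric.infDist_singleton, Real.dist_eq, Real.dist_eq,
      sub_zero, sub_zero, abs_of_nonneg hx.1] at h'
    simp only [mem_iUnion, exists_prop]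
    refine ⟨u, hu, ?_⟩
    rw [Metric.mem_closedBall, Real.dist_eq, sub_neg_eq_add]
    refine h'.trans ?_
    have he := Real.exp_pos (-τ)
    nlinarith [hx.2]
  have hmeas : (1 : ℝ≥0∞) ≤ S.card * ENNReal.ofReal (4 * Real.exp (-τ)) := by
    calc (1 : ℝ≥0∞) = volume (Icc (0 : ℝ) 1) := by simp
      _ ≤ volume (⋃ u ∈ S, Metric.closedBall (-∫ s in (0 : ℝ)..τ, u s)
          (2 * Real.exp (-τ))) := measure_mono hcov
      _ ≤ ∑ u ∈ S, volume (Metric.closedBall (-∫ s in (0 : ℝ)..τ, u s)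
          (2 * Real.exp (-τ))) := measure_biUnion_finset_le _ _
      _ = ∑ u ∈ S, ENNReal.ofReal (4 * Real.exp (-τ)) := by
          refine Finset.sum_congr rfl fun u _ => ?_
          rw [Real.volume_closedBall]; congr 1; ring
      _ = S.card * ENNReal.ofReal (4 * Real.exp (-τ)) := by simp
  have h2 : ((integrator.rs rate (Icc 0 1) {0} τ ε : ℕ∞) : ℝ≥0∞) = (S.card : ℝ≥0∞) := by
    rw [← hcard]; simp
  rw [h2] at hcon
  have h3 : (S.card : ℝ) < Real.exp τ / 4 := by
    have hpos : (0 : ℝ) < Real.exp τ / 4 := by positivity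
    have := (ENNReal.lt_ofReal_iff_toReal_lt (ENNReal.natCast_ne_top _)).1 hcon
    simpa using this
  have h4 : (1 : ℝ) ≤ S.card * (4 * Real.exp (-τ)) := by
    have h5 : (S.card : ℝ≥0∞) * ENNReal.ofReal (4 * Real.exp (-τ)) =
        ENNReal.ofReal (S.card * (4 * Real.exp (-τ))) := by
      rw [ENNReal.ofReal_mul (by positivity)]; simp
    rw [h5, ← ENNReal.ofReal_one] at hmeas
    exact (ENNReal.ofReal_le_ofReal_iff (by positivity)).1 hmeas
  have h6 : Real.exp τ * Real.exp (-τ) = 1 := by rw [← Real.exp_add]; simp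
  have he := Real.exp_pos (-τ)
  nlinarith

theorem hps_zero {ε : ℝ} (hε : 0 < ε) : integrator.hps rate (Icc 0 1) {0} ε = 0 := by
  obtain ⟨N, hN⟩ := practical hε
  have hN1 : 1 ≤ N := by
    have := one_le_rps.trans (hN 0)
    exact_mod_cast this
  refine Tendsto.limsup_eq ?_
  have hup : Tendsto (fun τ : ℝ => ((Real.log N / τ : ℝ) : EReal)) atTop (𝓝 ((0 : ℝ) : EReal)) :=
    (continuous_coe_real_ereal.tendsto 0).comp (tendsto_const_nhds.div_atTop tendsto_id)
  refine tendsto_of_tendsto_of_tendsto_of_le_of_le' (tendsto_const_nhds (x := (0 : EReal))) hup ?_ ?_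
  · filter_upwards [eventually_gt_atTop (0 : ℝ)] with τ hτ
    apply EReal.div_nonneg
    · rw [ENNReal.zero_le_log_iff]
      exact_mod_cast one_le_rps
    · exact_mod_cast hτ.le
  · filter_upwards [eventually_gt_atTop (0 : ℝ)] with τ hτ
    rw [EReal.coe_div]
    apply EReal.div_le_div_right_of_nonneg
    · exact_mod_cast hτ.le
    · have h1 : ((integrator.rps rate (Icc 0 1) {0} τ ε : ℕ∞) : ℝ≥0∞) ≤ ENNReal.ofReal (N : ℝ) := by
        rw [ENNReal.ofReal_natCast]
        exact_mod_cast hN τ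
      have h2 := ENNReal.log_monotone h1
      rwa [ENNReal.log_ofReal_of_pos (by exact_mod_cast hN1)] at h2

theorem one_le_hs {ε : ℝ} (hε : ε ≤ 1) : 1 ≤ integrator.hs rate (Icc 0 1) {0} ε := by
  have hlow : Tendsto (fun τ : ℝ => (((τ - Real.log 4) / τ : ℝ) : EReal)) atTop
      (𝓝 ((1 : ℝ) : EReal)) := by
    refine (continuous_coe_real_ereal.tendsto 1).comp ?_
    have h : Tendsto (fun τ : ℝ => 1 - Real.log 4 / τ) atTop (𝓝 (1 - 0)) :=
      tendsto_const_nhds.sub (tendsto_const_nhds.div_atTop tendsto_id)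
    rw [sub_zero] at h
    refine h.congr' ?_
    filter_upwards [eventually_gt_atTop (0 : ℝ)] with τ hτ
    rw [sub_div, div_self hτ.ne']
  have h1 : (1 : EReal) = limsup (fun τ : ℝ => (((τ - Real.log 4) / τ : ℝ) : EReal)) atTop := by
    rw [hlow.limsup_eq]; rfl
  rw [h1]
  refine limsup_le_limsup ?_
  filter_upwards [eventually_gt_atTop (0 : ℝ)] with τ hτ
  rw [EReal.coe_div]
  apply EReal.div_le_div_right_of_nonneg
  · exact_mod_cast hτ.le
  · have h2 := ENNReal.log_monotone (lower hτ.le hε)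
    rw [ENNReal.log_ofReal_of_pos (by positivity), Real.log_div (Real.exp_pos _).ne' (by norm_num),
      Real.log_exp] at h2
    exact h2

theorem hs_antitone : Antitone fun ε => integrator.hs rate (Icc 0 1) {0} ε := by
  intro ε ε' h
  refine limsup_le_limsup ?_
  filter_upwards [eventually_gt_atTop (0 : ℝ)] with τ hτ
  apply EReal.div_le_div_right_of_nonneg
  · exact_mod_cast hτ.le
  · apply ENNReal.log_monotone
    have : integrator.rs rate (Icc 0 1) {0} τ ε' ≤ integrator.rs rate (Icc 0 1) {0} τ ε := by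
      refine le_iInf₂ fun S hS => iInf₂_le S ⟨hS.1, fun x hx => ?_⟩
      obtain ⟨u, hu, hb⟩ := hS.2 x hx
      refine ⟨u, hu, fun t ht ht' => (hb t ht ht').trans ?_⟩
      exact mul_le_mul_of_nonneg_left (by linarith) (Real.exp_pos _).le
    exact_mod_cast this

/-- There are a control system, compact sets `Γ, Λ` and a KL-function `ζ` for which the system is
stabilizable, and `h_ps(ζ, Γ, Λ) < h_s(ζ, Γ, Λ)`. -/
theorem result : ∃ (C : ControlSystem ℝ ℝ) (ζ : ℝ → ℝ → ℝ) (Γ Λ : Set ℝ),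
    IsKL ζ ∧ IsCompact Γ ∧ Γ.Nonempty ∧ IsCompact Λ ∧ Λ.Nonempty ∧ C.Stabilizable ζ Γ Λ ∧
      ∃ a b : EReal, Tendsto (C.hps ζ Γ Λ) (𝓝[>] 0) (𝓝 a) ∧
        Tendsto (C.hs ζ Γ Λ) (𝓝[>] 0) (𝓝 b) ∧ a < b := by
  refine ⟨integrator, rate, Icc 0 1, {0}, rate_isKL, isCompact_Icc, ⟨0, by simp⟩,
    isCompact_singleton, singleton_nonempty _, stab, 0, _, ?_, hs_antitone.tendsto_nhdsGT 0, ?_⟩
  · refine tendsto_const_nhds.congr' ?_
    filter_upwards [self_mem_nhdsWithin] with ε hε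
    exact (hps_zero hε).symm
  · refine lt_of_lt_of_le zero_lt_one ?_
    refine (one_le_hs (ε := 1) le_rfl).trans ?_
    exact le_sSup ⟨1, by simp, rfl⟩

end Pool.Agent.Results.MP_395e41_an.PracticalSmaller
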